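import Pool.Agent.E8helper8.EC.Stm

/-!
# Project EC, piece BDRY: the realization of the boundary inclusion is injective
-/

set_option autoImplicit false
set_option linter.unusedVariables false

open CategoryTheory Simplicial Opposite

namespace Pool.Agent.E8helper91.EC

open Pool.Agent.E8helper8.EC

theorem push_apply {m n : ℕ} (α : ⦋m⦌ ⟶ ⦋n⦌) (x : Dl m) (j : Fin (n + 1)) :
    (push α x) j = ∑ k with α.toOrderHom k = j, x k := by
  show FunOnFinite.linearMap ℝ ℝ _ _ j = _
  rw [FunOnFinite.linearMap_apply_apply]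

theorem push_comp {l m n : ℕ} (β : ⦋l⦌ ⟶ ⦋m⦌) (α : ⦋m⦌ ⟶ ⦋n⦌) (x : Dl l) :
    push (β ≫ α) x = push α (push β x) := by
  show stdSimplex.map _ x = stdSimplex.map _ (stdSimplex.map _ x)
  rw [stdSimplex.map_comp_apply]
  rfl

theorem push_inj {m n : ℕ} (α : ⦋m⦌ ⟶ ⦋n⦌) (hα : Function.Injective α.toOrderHom) :
    Function.Injective (push α) := by
  intro x y h
  ext k
  have h1 := DFunLike.congr_fun h (α.toOrderHom k)
  rw [push_apply, push_apply] at h1
  have : ∀ k' : Fin (m + 1), α.toOrderHom k' = α.toOrderHom k ↔ k' = k :=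
    fun k' => hα.eq_iff
  simpa [this, Finset.sum_filter] using h1

/-- a point of the simplex supported on a nonempty set is a push along the increasing
enumeration -/
theorem supp {m : ℕ} (x : Dl m) (T : Finset (Fin (m + 1))) (hT : ∀ k, k ∉ T → x k = 0) :
    ∃ (a : ℕ) (d : ⦋a⦌ ⟶ ⦋m⦌) (x' : Dl a), (∀ k, d.toOrderHom k ∈ T) ∧ push d x' = x := by
  classical
  have hne : T.Nonempty := by
    by_contra hn
    rw [Finset.not_nonempty_iff_eq_empty] at hn
    have h1 := stdSimplex.sum_eq_one x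
    rw [Finset.sum_eq_zero fun k _ => hT k (by simp [hn])] at h1
    exact zero_ne_one h1
  obtain ⟨a, ha⟩ : ∃ a, T.card = a + 1 := ⟨T.card - 1, by
    have := Finset.card_pos.2 hne
    omega⟩
  let e := T.orderEmbOfFin ha
  let d : ⦋a⦌ ⟶ ⦋m⦌ := SimplexCategory.mkHom e.toOrderHom
  have hd : ∀ k, d.toOrderHom k = e k := fun _ => rfl
  have hinj : Function.Injective e := e.injective
  have hsum : ∀ f : Fin (m + 1) → ℝ, ∑ k, f (e k) = ∑ k ∈ T, f k := by
    intro f
    rw [← Finset.image_orderEmbOfFin_univ T ha, Finset.sum_image fun a _ b _ h => hinj h]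
  refine ⟨a, d, ⟨fun k => x (e k), fun k => stdSimplex.zero_le x _, ?_⟩,
    fun k => Finset.orderEmbOfFin_mem T ha k, ?_⟩
  · show ∑ k, x (e k) = 1
    rw [hsum fun k => x k, ← stdSimplex.sum_eq_one x]
    exact Finset.sum_subset (Finset.subset_univ T) fun k _ hk => hT k hk
  · ext j
    rw [push_apply]
    show ∑ k with e k = j, x (e k) = x j
    by_cases hj : j ∈ T
    · obtain ⟨k, rfl⟩ : ∃ k, e k = j := by
        have : j ∈ Set.range (T.orderEmbOfFin ha) := by
          rw [Finset.range_orderEmbOfFin]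
          exact hj
        exact this
      have : ∀ k', e k' = e k ↔ k' = k := fun k' => hinj.eq_iff
      simp [this, Finset.sum_filter]
    · rw [hT j hj, Finset.sum_eq_zero]
      intro k hk
      rw [Finset.mem_filter] at hk
      rw [hk.2]
      exact hT j hj

/-- the faces of the boundary -/
def bdδ (n : ℕ) (i : Fin (n + 2)) : ((SSet.boundary.{0} (n + 1)).toSSet).obj (op ⦋n⦌) :=
  ⟨SSet.stdSimplex.objEquiv.symm (SimplexCategory.δ i), fun h => by
    obtain ⟨k, hk⟩ := h i
    exact Fin.succAbove_ne i k hk⟩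

theorem key (hR : S_REAL) (n m : ℕ) (s : ((SSet.boundary.{0} (n + 1)).toSSet).obj (op ⦋m⦌))
    (x : Dl m) (i : Fin (n + 2)) (hi : (push (SSet.stdSimplex.objEquiv s.1) x) i = 0) :
    ∃ w : Dl n, ch _ m s x = ch _ n (bdδ n i) w ∧
      push (SimplexCategory.δ i) w = push (SSet.stdSimplex.objEquiv s.1) x := by
  classical
  let σ : ⦋m⦌ ⟶ ⦋n + 1⦌ := SSet.stdSimplex.objEquiv s.1
  obtain ⟨a, d, x', hd, rfl⟩ := supp x {k | σ.toOrderHom k ≠ i} (by
    intro k hk
    rw [Finset.mem_filter] at hk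
    push Not at hk
    have hk' := hk (Finset.mem_univ k)
    rw [push_apply] at hi
    have h0 := (Finset.sum_eq_zero_iff_of_nonneg fun k _ => stdSimplex.zero_le x k).1 hi
    exact h0 k (Finset.mem_filter.2 ⟨Finset.mem_univ k, hk'⟩))
  obtain ⟨u, hu⟩ := SimplexCategory.eq_comp_δ_of_not_surjective' (d ≫ σ) i (by
    intro k
    exact (Finset.mem_filter.1 (hd k)).2)
  refine ⟨push u x', ?_, ?_⟩
  · rw [← hR.1, ← hR.1]
    congr 2
    apply Subtype.ext
    show SSet.stdSimplex.objEquiv.symm (d ≫ σ) = SSet.stdSimplex.objEquiv.symm (u ≫ _)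
    rw [hu]
    rfl
  · rw [← push_comp, ← push_comp]
    show _ = push (d ≫ σ) x'
    rw [hu]

theorem t_BDRY : S_BDRY := by
  intro hR n p q hpq
  obtain ⟨m, s, x, rfl⟩ := hR.2.2.1 _ p
  obtain ⟨l, t, y, rfl⟩ := hR.2.2.1 _ q
  obtain ⟨H, hH⟩ := hR.2.1 (Δ[n] : SSet.{0}) (Dl n)
    (fun m s => push (SSet.stdSimplex.objEquiv s)) (by
      intro n' m' α s x
      rw [← push_comp]
      rfl)
  rw [hR.2.2.2, hR.2.2.2] at hpq
  have hz : push (SSet.stdSimplex.objEquiv s.1) x = push (SSet.stdSimplex.objEquiv t.1) y := by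
    have := congrArg H hpq
    rw [hH, hH] at this
    exact this
  have hs : ¬ Function.Surjective (SSet.stdSimplex.asOrderHom s.1) := s.2
  rw [Function.Surjective] at hs
  push Not at hs
  obtain ⟨i, hi⟩ := hs
  obtain _ | n := n
  · exact absurd (Subsingleton.elim (α := Fin 1) _ _) (hi 0)
  have hz0 : (push (SSet.stdSimplex.objEquiv s.1) x) i = 0 := by
    rw [push_apply, Finset.sum_eq_zero]
    intro k hk
    exact absurd (Finset.mem_filter.1 hk).2 (hi k)
  obtain ⟨w, hw1, hw2⟩ := key hR n m s x i hz0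
  obtain ⟨w', hw1', hw2'⟩ := key hR n l t y i (hz ▸ hz0)
  have : w = w' := by
    apply push_inj (SimplexCategory.δ i)
    · exact Fin.succAbove_right_injective
    · rw [hw2, hw2', hz]
  rw [hw1, hw1', this]

end Pool.Agent.E8helper91.EC
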